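import Pool.Agent.Helper54.TR.EC
import Pool.Agent.Helper21.MH.Hodge2

/-!
Project TR (MP_b8862a_ag), block TR-4b: the minimal idempotents of the complexified endomorphism algebra.
-/

set_option autoImplicit false
set_option linter.unusedSectionVars false

open Matrix

namespace MH

private theorem blocks_abs38 {A : Type*} [CommRing A] [Algebra ℂ A] [Module.Finite ℂ A] [IsReduced A] :
    ∃ (k : ℕ) (e : Fin k → A), (∀ i, e i * e i = e i) ∧ (∀ i, e i ≠ 0) ∧ (∀ i j, i ≠ j → e i * e j = 0) ∧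
      ∑ i, e i = 1 ∧ ∀ i x, ∃ c : ℂ, x * e i = c • e i := by
  classical
  have hA : IsArtinianRing A := IsArtinianRing.of_finite ℂ A
  let φ := (IsArtinianRing.equivPi A).toRingEquiv
  have hfin : Finite (MaximalSpectrum A) := inferInstance
  have : Fintype (MaximalSpectrum A) := Fintype.ofFinite _
  let ψ : Fin (Fintype.card (MaximalSpectrum A)) ≃ MaximalSpectrum A := (Fintype.equivFin _).symm
  refine ⟨Fintype.card (MaximalSpectrum A), fun i => φ.symm (Pi.single (ψ i) 1), ?_, ?_, ?_, ?_, ?_⟩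
  · intro i
    rw [← map_mul, ← Pi.single_mul, one_mul]
  · intro i h
    rw [map_eq_zero_iff _ φ.symm.injective] at h
    have h1 := congrFun h (ψ i)
    rw [Pi.single_eq_same, Pi.zero_apply] at h1
    exact one_ne_zero h1
  · intro i j hij
    rw [← map_mul, map_eq_zero_iff _ φ.symm.injective]
    funext I
    rw [Pi.mul_apply, Pi.zero_apply]
    by_cases h : I = ψ i
    · subst h
      rw [Pi.single_eq_of_ne (fun h' => hij (ψ.injective h')), mul_zero]
    · rw [Pi.single_eq_of_ne h, zero_mul]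
  · rw [← map_sum, ← map_one φ.symm]
    congr 1
    rw [Equiv.sum_comp ψ (fun I => (Pi.single I 1 : ∀ I : MaximalSpectrum A, A ⧸ I.asIdeal))]
    funext I
    rw [Finset.sum_apply, Pi.one_apply, Finset.sum_eq_single I]
    · exact Pi.single_eq_same _ _
    · intro J _ hJ
      exact Pi.single_eq_of_ne (Ne.symm hJ) _
    · intro h
      exact absurd (Finset.mem_univ _) h
  · intro i x
    have := (ψ i).isMaximal
    have hint : Algebra.IsIntegral ℂ (A ⧸ (ψ i).asIdeal) := inferInstance
    obtain ⟨c, hc⟩ := (IsAlgClosed.algebraMap_bijective_of_isIntegral (k := ℂ) (K := A ⧸ (ψ i).asIdeal)).2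
      (Ideal.Quotient.mk _ x)
    refine ⟨c, ?_⟩
    apply φ.injective
    rw [map_mul, RingEquiv.apply_symm_apply, Algebra.smul_def, map_mul, RingEquiv.apply_symm_apply]
    funext I
    rw [Pi.mul_apply, Pi.mul_apply]
    by_cases h : I = ψ i
    · subst h
      rw [Pi.single_eq_same, mul_one, mul_one]
      change (Ideal.Quotient.mk _ x : A ⧸ (ψ i).asIdeal) = Ideal.Quotient.mk _ (algebraMap ℂ A c)
      rw [← hc]
      rfl
    · rw [Pi.single_eq_of_ne h, mul_zero, mul_zero]

variable {n : Type*} [Fintype n] [DecidableEq n]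
variable {m : ℤ} {Q : Matrix n n ℚ} {S : Finset ℤ} {P : ℤ → Matrix n n ℂ}

private theorem map_mul38 (σ : ℂ ≃+* ℂ) (x y : Matrix n n ℂ) : (x * y).map σ = x.map σ * y.map σ := by
  have := Matrix.map_mul (L := x) (M := y) (f := (σ : ℂ →+* ℂ))
  exact this

private theorem map_smul38 (σ : ℂ ≃+* ℂ) (c : ℂ) (x : Matrix n n ℂ) : (c • x).map σ = σ c • x.map σ := by
  ext i j
  simp

private theorem map_map38 (σ : ℂ ≃+* ℂ) (x : Matrix n n ℂ) : (x.map σ.symm).map σ = x := by
  ext i j
  simp

private theorem map_map38' (σ : ℂ ≃+* ℂ) (x : Matrix n n ℂ) : (x.map σ).map σ.symm = x := by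
  ext i j
  simp

theorem IsBlock.aut (σ : ℂ ≃+* ℂ) {e : Matrix n n ℂ} (he : IsBlock P e) : IsBlock P (e.map σ) := by
  refine ⟨EC_aut σ he.mem, ?_, ?_, ?_⟩
  · rw [← map_mul38, he.idem]
  · intro h
    apply he.ne
    rw [← map_map38' σ e, h]
    ext i j
    simp
  · intro x hx
    obtain ⟨c, hc⟩ := he.min _ (EC_aut σ.symm hx)
    refine ⟨σ c, ?_⟩
    rw [← map_smul38, ← hc, map_mul38, map_map38]

/-- the Hermitian adjoint of an element of `EC` is the complex conjugate -/
private theorem herm38 (_H : IsHS m Q S P) (hSA : SelfAdj Q P) {x : Matrix n n ℂ} (hx : x ∈ EC P) :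
    xᴴ * (toC Q * Cs m S P) = toC Q * Cs m S P * x.map (starRingEnd ℂ) := by
  have hc := EC_conj hx
  have h1 : xᴴ = (x.map (starRingEnd ℂ))ᵀ := rfl
  have h2 : Cs m S P * x.map (starRingEnd ℂ) = x.map (starRingEnd ℂ) * Cs m S P := by
    unfold Cs
    rw [Finset.sum_mul, Finset.mul_sum]
    refine Finset.sum_congr rfl fun p _ => ?_
    rw [smul_mul_assoc, mul_smul_comm, EC_P hc]
  rw [h1, ← mul_assoc, EC_adj hSA hc, mul_assoc, mul_assoc, h2]

open scoped ComplexOrder in
/-- positivity -/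
private theorem pos38 (H : IsHS m Q S P) {x : Matrix n n ℂ} (h : xᴴ * (toC Q * Cs m S P) * x = 0) : x = 0 := by
  obtain ⟨B, Bi, Qi, h1, h2, -, -, h5⟩ := H.exists_basis
  rw [h5] at h
  have h6 : (B * x)ᴴ * (B * x) = 0 := by
    rw [Matrix.conjTranspose_mul]
    rw [← h]
    simp only [mul_assoc]
  have h7 : B * x = 0 := Matrix.conjTranspose_mul_self_eq_zero.1 h6
  calc x = Bi * B * x := by rw [h2, one_mul]
    _ = Bi * (B * x) := mul_assoc _ _ _
    _ = 0 := by rw [h7, mul_zero]

private theorem conj_eq38 (x : Matrix n n ℂ) : x.map (starRingEnd ℂ) = x.map (starRingAut : ℂ ≃+* ℂ) := rfl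

private theorem block_conj38 {e : Matrix n n ℂ} (he : IsBlock P e) : IsBlock P (e.map (starRingEnd ℂ)) := by
  rw [conj_eq38]
  exact he.aut _

private theorem eq_or38 (hcomm : ∀ x ∈ EC P, ∀ y ∈ EC P, x * y = y * x) {e f : Matrix n n ℂ}
    (he : IsBlock P e) (hf : IsBlock P f) : e = f ∨ e * f = 0 := by
  obtain ⟨c, hc⟩ := hf.min e he.mem
  obtain ⟨d, hd⟩ := he.min f hf.mem
  by_cases h0 : e * f = 0
  · exact Or.inr h0
  · left
    have h1 : (e * f) * (e * f) = e * f := by
      rw [mul_assoc, ← mul_assoc f e f, hcomm f hf.mem e he.mem, mul_assoc e f f, hf.idem, ← mul_assoc, he.idem]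
    have h2 : c • (e * f) = e * f := by
      conv_lhs => rw [hc]
      rw [smul_smul]
      have h3 := h1
      rw [hc, smul_mul_smul_comm, hf.idem] at h3
      rw [h3, ← hc]
    have hc1 : c = 1 := by
      by_contra hne
      apply h0
      have h4 : (c - 1) • (e * f) = 0 := by rw [sub_smul, one_smul, h2, sub_self]
      exact (smul_eq_zero.1 h4).resolve_left (sub_ne_zero.2 hne)
    rw [hc1, one_smul] at hc
    have h5 : d • (e * f) = e * f := by
      have h6 : e * f = d • e := by rw [hcomm e he.mem f hf.mem, hd]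
      have h3 := h1
      rw [h6, smul_mul_smul_comm, he.idem] at h3
      rw [h6, smul_smul, h3]
    have hd1 : d = 1 := by
      by_contra hne
      apply h0
      have h4 : (d - 1) • (e * f) = 0 := by rw [sub_smul, one_smul, h5, sub_self]
      exact (smul_eq_zero.1 h4).resolve_left (sub_ne_zero.2 hne)
    rw [hd1, one_smul] at hd
    rw [← hd, hcomm f hf.mem e he.mem, hc]

theorem IsBlock.real (H : IsHS m Q S P) (hSA : SelfAdj Q P) {e : Matrix n n ℂ} (he : IsBlock P e) :
    e.map (starRingEnd ℂ) = e := by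
  rcases eq_or38 (fun x hx y hy => EC_comm H hSA hx hy) (block_conj38 he) he with h | h
  · exact h
  · exfalso
    apply he.ne
    apply pos38 H
    rw [herm38 H hSA he.mem, mul_assoc, h, mul_zero]

theorem IsBlock.eq_or (H : IsHS m Q S P) (hSA : SelfAdj Q P) {e f : Matrix n n ℂ} (he : IsBlock P e)
    (hf : IsBlock P f) : e = f ∨ e * f = 0 :=
  eq_or38 (fun _ hx _ hy => EC_comm H hSA hx hy) he hf

/-- the subalgebra -/
private def ECA38 (P : ℤ → Matrix n n ℂ) : Subalgebra ℂ (Matrix n n ℂ) where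
  carrier := EC P
  mul_mem' := EC_mul
  one_mem' := EC_one
  add_mem' := (EC P).add_mem
  zero_mem' := (EC P).zero_mem
  algebraMap_mem' c := by
    rw [Algebra.algebraMap_eq_smul_one]
    exact (EC P).smul_mem c EC_one

/-- `EC` is reduced -/
private theorem red38 (H : IsHS m Q S P) (hSA : SelfAdj Q P) {x : Matrix n n ℂ} (hx : x ∈ EC P) (h : x * x = 0) :
    x = 0 := by
  have hc := EC_conj hx
  set y := x.map (starRingEnd ℂ) * x with hy
  have hyE : y ∈ EC P := EC_mul hc hx
  have hyc : y.map (starRingEnd ℂ) = y := by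
    rw [hy, Matrix.map_mul]
    have h1 : (x.map (starRingEnd ℂ)).map (starRingEnd ℂ) = x := by
      ext i j
      simp
    rw [h1, EC_comm H hSA hx hc]
  have hyy : y * y = 0 := by
    rw [hy, mul_assoc, ← mul_assoc x, EC_comm H hSA hx hc, mul_assoc, h, mul_zero, mul_zero]
  have hy0 : y = 0 := by
    apply pos38 H
    rw [herm38 H hSA hyE, hyc, mul_assoc, hyy, mul_zero]
  apply pos38 H
  rw [herm38 H hSA hx, mul_assoc, ← hy, hy0, mul_zero]

open scoped IsMulCommutative in
theorem exists_blocks (H : IsHS m Q S P) (hSA : SelfAdj Q P) : ∃ (k : ℕ) (e : Fin k → Matrix n n ℂ),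
    (∀ i, IsBlock P (e i)) ∧ (∀ i j, i ≠ j → e i * e j = 0) ∧ ∑ i, e i = 1 ∧
      (∀ f, IsBlock P f → ∃ i, f = e i) ∧ EC P = Submodule.span ℂ (Set.range e) := by
  have hm : IsMulCommutative (ECA38 P) := by
    rw [isMulCommutative_iff]
    intro a b
    exact Subtype.ext (EC_comm H hSA a.2 b.2)
  have hr : IsReduced (ECA38 P) := by
    rw [isReduced_iff_pow_one_lt 2 (by norm_num)]
    intro x hx
    apply Subtype.ext
    refine red38 H hSA x.2 ?_
    have := congrArg Subtype.val hx
    rw [pow_two] at this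
    exact this
  obtain ⟨k, e, h1, h2, h3, h4, h5⟩ := blocks_abs38 (A := ECA38 P)
  have hb : ∀ i, IsBlock P (e i : Matrix n n ℂ) := by
    intro i
    refine ⟨(e i).2, congrArg Subtype.val (h1 i), fun h => h2 i (Subtype.ext h), fun x hx => ?_⟩
    obtain ⟨c, hc⟩ := h5 i ⟨x, hx⟩
    exact ⟨c, congrArg Subtype.val hc⟩
  have hs : ∑ i, (e i : Matrix n n ℂ) = 1 := by
    have := congrArg Subtype.val h4
    rw [AddSubmonoidClass.coe_finsetSum] at this
    exact this
  refine ⟨k, fun i => (e i : Matrix n n ℂ), hb, fun i j hij => congrArg Subtype.val (h3 i j hij), hs, ?_, ?_⟩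
  · intro f hf
    by_contra hcon
    push Not at hcon
    apply hf.ne
    have h6 : ∀ i, f * (e i : Matrix n n ℂ) = 0 := fun i =>
      ((IsBlock.eq_or H hSA hf (hb i)).resolve_left (hcon i))
    calc f = f * ∑ i, (e i : Matrix n n ℂ) := by rw [hs, mul_one]
      _ = 0 := by
        rw [Finset.mul_sum]
        exact Finset.sum_eq_zero fun i _ => h6 i
  · apply le_antisymm
    · intro x hx
      have h7 : x = ∑ i, x * (e i : Matrix n n ℂ) := by rw [← Finset.mul_sum, hs, mul_one]
      rw [h7]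
      refine Submodule.sum_mem _ fun i _ => ?_
      obtain ⟨c, hc⟩ := (hb i).min x hx
      rw [hc]
      exact Submodule.smul_mem _ _ (Submodule.subset_span ⟨i, rfl⟩)
    · rw [Submodule.span_le]
      rintro _ ⟨i, rfl⟩
      exact (hb i).mem

/-- a block that is of type `(m, m)` with all its conjugates has rank one: every `T = e T e` commutes with all the
conjugates of `∑ (p - m) P p`, so it lies in `EC` -/
theorem IsBlock.rank_one (H : IsHS m Q S P) {e : Matrix n n ℂ} (he : IsBlock P e)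
    (h0 : ∀ σ : ℂ ≃+* ℂ, ∀ p, p ≠ m → e.map σ * P p = 0) : e.rank = 1 := by
  have key : ∀ σ : ℂ ≃+* ℂ, e * (∑ p ∈ S, ((p - m : ℤ) : ℂ) • P p).map σ = 0 := by
    intro σ
    rw [← map_map38 σ e, ← map_mul38, Finset.mul_sum]
    have h1 : ∑ p ∈ S, e.map σ.symm * (((p - m : ℤ) : ℂ) • P p) = 0 := by
      refine Finset.sum_eq_zero fun p _ => ?_
      rw [mul_smul_comm]
      by_cases hp : p = m
      · rw [hp, sub_self, Int.cast_zero, zero_smul]
      · rw [h0 σ.symm p hp, smul_zero]
    rw [h1]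
    ext i j
    simp
  have key' : ∀ σ : ℂ ≃+* ℂ, (∑ p ∈ S, ((p - m : ℤ) : ℂ) • P p).map σ * e = 0 := by
    intro σ
    rw [← key σ]
    conv_lhs => rw [← map_map38 σ e]
    conv_rhs => rw [← map_map38 σ e]
    rw [← map_mul38, ← map_mul38, Finset.mul_sum, Finset.sum_mul]
    congr 1
    refine Finset.sum_congr rfl fun p _ => ?_
    rw [smul_mul_assoc, mul_smul_comm, EC_P (EC_aut σ.symm he.mem)]
  have hT : ∀ T : Matrix n n ℂ, e * T * e = T → ∃ c : ℂ, T = c • e := by
    intro T hT
    have h1 : T ∈ EC P := by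
      apply descentE H
      intro σ
      have h2 : T * (∑ p ∈ S, ((p - m : ℤ) : ℂ) • P p).map σ = 0 := by
        rw [← hT, mul_assoc, key, mul_zero]
      have h3 : (∑ p ∈ S, ((p - m : ℤ) : ℂ) • P p).map σ * T = 0 := by
        rw [← hT, mul_assoc, ← mul_assoc, key', zero_mul]
      rw [h2, h3]
    obtain ⟨c, hc⟩ := he.min T h1
    have h4 : T * e = T := by
      conv_lhs => rw [← hT, mul_assoc, he.idem]
      exact hT
    exact ⟨c, by rw [← hc, h4]⟩
  -- a nonzero matrix of rank one below `e`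
  have hne := he.ne
  obtain ⟨i, j, hij⟩ : ∃ i j, e i j ≠ 0 := by
    by_contra hcon
    push Not at hcon
    exact hne (by ext i j; exact hcon i j)
  obtain ⟨c, hc⟩ := hT (e * Matrix.single j i 1 * e) (by
    rw [← mul_assoc, ← mul_assoc, he.idem, mul_assoc _ e e, he.idem])
  have h1 : (e * Matrix.single j i (1 : ℂ) * e) i j ≠ 0 := by
    have h2 : (e * Matrix.single j i (1 : ℂ) * e) i j = e i j * e i j := by
      rw [Matrix.mul_apply, Finset.sum_eq_single i]
      · rw [Matrix.mul_single_apply_same, mul_one]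
      · intro k _ hk
        rw [Matrix.mul_single_apply_of_ne _ _ _ _ _ hk, zero_mul]
      · intro h
        exact absurd (Finset.mem_univ _) h
    rw [h2]
    exact mul_ne_zero hij hij
  have hc0 : c ≠ 0 := by
    rintro rfl
    rw [zero_smul] at hc
    rw [hc] at h1
    exact h1 rfl
  have h3 : e.rank ≤ 1 := by
    have h4 : e = c⁻¹ • (e * Matrix.single j i (1 : ℂ) * e) := by
      rw [hc, smul_smul, inv_mul_cancel₀ hc0, one_smul]
    have h5 : e = (c⁻¹ • e) * (Matrix.single j i (1 : ℂ) * e) := by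
      conv_lhs => rw [h4]
      rw [smul_mul_assoc, mul_assoc]
    have h6 : e.rank ≤ (Matrix.single j i (1 : ℂ)).rank := by
      conv_lhs => rw [h5]
      exact (Matrix.rank_mul_le_right _ _).trans (Matrix.rank_mul_le_left _ _)
    refine h6.trans ?_
    rw [Matrix.single_eq_single_vecMulVec_single]
    exact Matrix.rank_vecMulVec_le _ _
  have h7 : e.rank ≠ 0 := by
    intro h
    rw [Matrix.rank, Submodule.finrank_eq_zero, LinearMap.range_eq_bot] at h
    apply hne
    ext a b
    have h8 := congrFun (LinearMap.congr_fun h (Pi.single b 1)) a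
    rw [Matrix.mulVecLin_apply, Matrix.mulVec_single_one] at h8
    exact h8
  omega

private theorem idem38 {e : Matrix n n ℂ} (H : IsHS m Q S P) (he : IsBlock P e) (p : ℤ) :
    (e * P p) * (e * P p) = e * P p := by
  rw [mul_assoc, ← mul_assoc (P p), ← EC_P he.mem, mul_assoc, ← mul_assoc e e, he.idem, H.mul, if_pos rfl]

theorem IsBlock.rank_symm (H : IsHS m Q S P) (hSA : SelfAdj Q P) {e : Matrix n n ℂ} (he : IsBlock P e) (p : ℤ) :
    (e * P (2 * m - p)).rank = (e * P p).rank := by
  rw [← rank_aut (starRingAut : ℂ ≃+* ℂ) (idem38 H he p), map_mul38, ← conj_eq38, ← conj_eq38, he.real H hSA, H.conj]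

theorem IsBlock.rank_sum (H : IsHS m Q S P) {e : Matrix n n ℂ} (he : IsBlock P e) :
    ∑ p ∈ S, (e * P p).rank = e.rank := by
  have h1 : ((∑ p ∈ S, (e * P p).rank : ℕ) : ℂ) = ((e.rank : ℕ) : ℂ) := by
    rw [Nat.cast_sum, ← trace_eq_rank he.idem]
    have h2 : e = ∑ p ∈ S, e * P p := by rw [← Finset.mul_sum, H.sum, mul_one]
    conv_rhs => rw [h2]
    rw [Matrix.trace_sum]
    exact Finset.sum_congr rfl fun p _ => (trace_eq_rank (idem38 H he p)).symm
  exact_mod_cast h1

end MH
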