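import Pool.Agent.Helper21.MT.Span

/-!
The rank of an extremal element divides the rank of every square zero element of a simple
irreducible Lie algebra of infinitesimal symplectic operators (block TR-C).
-/

open Module LieModule LieAlgebra Polynomial

attribute [local instance 100] LieRing.ofAssociativeRing

namespace TR

open MTP

namespace RD

variable {K : Type*} [Field K] {V : Type*} [AddCommGroup V] [Module K V] [FiniteDimensional K V]
  {ω : LinearMap.BilinForm K V} {L : Submodule K (Module.End K V)} {S : Set (Module.End K V)}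
  {r : ℕ}

/-- The extremal square zero elements of rank `r`. -/
def Ex (L : Submodule K (Module.End K V)) (r : ℕ) : Set (Module.End K V) :=
  {x | x ∈ L ∧ x * x = 0 ∧ rk x = r ∧ ∀ y ∈ L, ∃ c : K, x * y * x = c • x}

lemma Ex_conj {g g' x : Module.End K V} (h1 : g' * g = 1) (h2 : g * g' = 1)
    (hg : ∀ z ∈ L, g * z * g' ∈ L) (hg' : ∀ z ∈ L, g' * z * g ∈ L) (hx : x ∈ Ex L r) :
    g * x * g' ∈ Ex L r := by
  obtain ⟨hx, hxx, hr, hext⟩ := hx
  refine ⟨hg x hx, ?_, ?_, ?_⟩
  · calc g * x * g' * (g * x * g') = g * x * (g' * g) * x * g' := by noncomm_ring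
      _ = g * (x * x) * g' := by rw [h1]; noncomm_ring
      _ = 0 := by rw [hxx]; simp
  · rw [rk_conj h1 h2, hr]
  · intro y hy
    obtain ⟨c, hc⟩ := hext _ (hg' y hy)
    refine ⟨c, ?_⟩
    calc g * x * g' * y * (g * x * g') = g * (x * (g' * y * g) * x) * g' := by noncomm_ring
      _ = c • (g * x * g') := by rw [hc, mul_smul_comm, smul_mul_assoc]

section torus
variable [CharZero K] {s : Module.End K V}

lemma comm_mem_span (hC : Ctx ω L S) (hs : s ∈ S) {x : Module.End K V}
    (hx : x ∈ Submodule.span K (Ex L r)) : s * x - x * s ∈ Submodule.span K (Ex L r) := by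
  obtain ⟨hsL, hss⟩ := hC.inv s hs
  induction hx using Submodule.span_induction with
  | zero => simp
  | add a b _ _ ha hb =>
    have : s * (a + b) - (a + b) * s = (s * a - a * s) + (s * b - b * s) := by noncomm_ring
    rw [this]; exact Submodule.add_mem _ ha hb
  | smul c a _ ha =>
    have : s * (c • a) - (c • a) * s = c • (s * a - a * s) := by
      rw [mul_smul_comm, smul_mul_assoc, smul_sub]
    rw [this]; exact Submodule.smul_mem _ _ ha
  | mem x hx =>
    have h1 : ∀ t : K, t ≠ 0 → (pp s * x * pp s + qq s * x * qq s) + t • (pp s * x * qq s)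
        + t⁻¹ • (qq s * x * pp s) ∈ Submodule.span K (Ex L r) := by
      intro t ht
      rw [← torus_conj_eq ht]
      apply Submodule.subset_span
      refine Ex_conj (torus_inv hss ht) (torus_inv' hss ht)
        (fun z hz => hC.torus_mem hs ht hz) (fun z hz => ?_) hx
      have := hC.torus_mem hs (inv_ne_zero ht) hz
      rwa [inv_inv] at this
    have a1 := h1 1 one_ne_zero
    have a2 := h1 (-1) (by norm_num)
    have a3 := h1 2 two_ne_zero
    set x0 := pp s * x * pp s + qq s * x * qq s with hx0
    set xp := pp s * x * qq s with hxp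
    set xq := qq s * x * pp s with hxq
    have hxe : x = x0 + xp + xq := by
      have : x = (pp s + qq s) * x * (pp s + qq s) := by rw [pp_add_qq]; simp
      rw [hx0, hxp, hxq]
      nth_rewrite 1 [this]
      noncomm_ring
    have hsx : s * x - x * s = (2 : K) • xp - (2 : K) • xq := by
      have e1 : s * x - x * s = (pp s - qq s) * x * (pp s + qq s)
        - (pp s + qq s) * x * (pp s - qq s) := by
        rw [pp_sub_qq, pp_add_qq]; simp
      rw [e1, hxp, hxq]
      have : (pp s - qq s) * x * (pp s + qq s) - (pp s + qq s) * x * (pp s - qq s)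
        = 2 • (pp s * x * qq s) - 2 • (qq s * x * pp s) := by noncomm_ring
      rw [this]
      module
    rw [hsx]
    have e2 : (2 : K) • xp - (2 : K) • xq =
        (-3 : K) • (x0 + (1 : K) • xp + (1 : K)⁻¹ • xq)
         + (1 / 3 : K) • (x0 + (-1 : K) • xp + (-1 : K)⁻¹ • xq)
         + (8 / 3 : K) • (x0 + (2 : K) • xp + (2 : K)⁻¹ • xq) := by
      match_scalars <;> norm_num
    rw [e2]
    exact Submodule.add_mem _ (Submodule.add_mem _ (Submodule.smul_mem _ _ a1)
      (Submodule.smul_mem _ _ a2)) (Submodule.smul_mem _ _ a3)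

lemma ideal (hC : Ctx ω L S) {z x : Module.End K V} (hz : z ∈ L)
    (hx : x ∈ Submodule.span K (Ex L r)) : z * x - x * z ∈ Submodule.span K (Ex L r) := by
  let M : Submodule K (Module.End K V) :=
    { carrier := {z | ∀ x ∈ Submodule.span K (Ex L r), z * x - x * z ∈ Submodule.span K (Ex L r)}
      add_mem' := by
        intro a b ha hb x hx
        have : (a + b) * x - x * (a + b) = (a * x - x * a) + (b * x - x * b) := by noncomm_ring
        rw [this]; exact Submodule.add_mem _ (ha x hx) (hb x hx)
      zero_mem' := by intro x _; simp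
      smul_mem' := by
        intro c a ha x hx
        have : (c • a) * x - x * (c • a) = c • (a * x - x * a) := by
          rw [mul_smul_comm, smul_mul_assoc, smul_sub]
        rw [this]; exact Submodule.smul_mem _ _ (ha x hx) }
  have h : L ≤ M := by
    apply hC.gen
    · intro a ha b hb x hx
      have h1 := ha _ (hb x hx)
      have h2 := hb _ (ha x hx)
      have e : (a * b - b * a) * x - x * (a * b - b * a) =
        (a * (b * x - x * b) - (b * x - x * b) * a) - (b * (a * x - x * a) - (a * x - x * a) * b) := by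
        noncomm_ring
      rw [e]
      exact Submodule.sub_mem _ h1 h2
    · intro s hs x hx
      exact comm_mem_span hC hs hx
  exact h hz x hx

end torus

omit [FiniteDimensional K V] in
lemma span_le (L : Submodule K (Module.End K V)) (r : ℕ) : Submodule.span K (Ex L r) ≤ L := by
  rw [Submodule.span_le]
  intro x hx
  exact hx.1

/-- The extremal elements span the simple Lie algebra. -/
lemma span_eq [CharZero K] {L : LieSubalgebra K (Module.End K V)} (hC : Ctx ω L.toSubmodule S)
    (hsimple : LieAlgebra.IsSimple K L) {e : Module.End K V} (he : e ∈ Ex L.toSubmodule r)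
    (he0 : e ≠ 0) : Submodule.span K (Ex L.toSubmodule r) = L.toSubmodule := by
  apply le_antisymm (span_le _ _)
  let R : LieIdeal K L :=
    { carrier := {y | (y : Module.End K V) ∈ Submodule.span K (Ex L.toSubmodule r)}
      add_mem' := by
        intro a b ha hb
        exact (Submodule.span K (Ex L.toSubmodule r)).add_mem ha hb
      zero_mem' := (Submodule.span K (Ex L.toSubmodule r)).zero_mem
      smul_mem' := by
        intro c a ha
        exact (Submodule.span K (Ex L.toSubmodule r)).smul_mem c ha
      lie_mem := by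
        intro x m hm
        exact ideal hC x.2 hm }
  intro z hz
  rcases hsimple.eq_bot_or_eq_top R with h | h
  · exfalso
    apply he0
    have h1 : (⟨e, he.1⟩ : L) ∈ R := Submodule.subset_span he
    rw [h, LieSubmodule.mem_bot] at h1
    exact congrArg Subtype.val h1
  · have h1 : (⟨z, hz⟩ : L) ∈ R := by rw [h]; exact LieSubmodule.mem_top _
    exact h1

section main
variable [IsAlgClosed K] [CharZero K]

lemma exists_pair {L : LieSubalgebra K (Module.End K V)} (hC : Ctx ω L.toSubmodule S)
    (hsimple : LieAlgebra.IsSimple K L) {e : Module.End K V} (he : e ∈ Ex L.toSubmodule r)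
    (he0 : e ≠ 0) {z : Module.End K V} (hz : z ∈ L) (hz0 : z ≠ 0) :
    ∃ y ∈ Ex L.toSubmodule r, LinearMap.trace K V (z * y) ≠ 0 := by
  by_contra hcon
  push Not at hcon
  apply hz0
  apply hC.irr.nondeg hC.nd hz
  intro y hy
  rw [← span_eq hC hsimple he he0] at hy
  induction hy using Submodule.span_induction with
  | zero => simp
  | add a b _ _ ha hb => rw [mul_add, map_add, ha, hb, add_zero]
  | smul c a _ ha => rw [mul_smul_comm, map_smul, ha, smul_zero]
  | mem y hy => exact hcon y hy

omit [IsAlgClosed K] [CharZero K] in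
lemma le_of_ext {x z : Module.End K V} {c : K} (h : x * z * x = c • x)
    (ht : LinearMap.trace K V (x * z) ≠ 0) : rk x ≤ rk z := by
  have hc : c ≠ 0 := by
    rintro rfl
    apply ht
    have hn : IsNilpotent (x * z) := by
      refine ⟨2, ?_⟩
      have : (x * z) ^ 2 = x * z * x * z := by noncomm_ring
      rw [this, h, zero_smul, zero_mul]
    exact (LinearMap.isNilpotent_trace_of_isNilpotent hn).eq_zero
  calc rk x = rk (c • x) := (rk_smul hc _).symm
    _ = rk (x * z * x) := by rw [h]
    _ ≤ rk z := (rk_mul_le_left _ _).trans (rk_mul_le_right _ _)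

/-- The dichotomy for a square zero element. -/
lemma dich {L : Submodule K (Module.End K V)} (hL : IrrSymp ω L)
    {x y : Module.End K V} (hx : x ∈ L) (hxx : x * x = 0) (hx0 : x ≠ 0) (hy : y ∈ L) :
    (∃ u ∈ L, ∃ v ∈ L, u * u = 0 ∧ v * v = 0 ∧ rk u + rk v = rk x ∧ 0 < rk u ∧ 0 < rk v) ∨
    (rk x : K) * LinearMap.trace K V ((x * y) * (x * y)) = (LinearMap.trace K V (x * y)) ^ 2 := by
  have hA : ∀ v, (x * y) v ∈ LinearMap.range x := fun v => ⟨y v, rfl⟩
  have hA' : ∀ v ∈ LinearMap.range x, (x * y) v ∈ LinearMap.range x := fun v _ => hA v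
  set r := rk x with hr
  have hrpos : 0 < r := rk_pos.mpr hx0
  set T : Module.End K (LinearMap.range x) := (x * y).restrict hA' with hT
  have hU : finrank K (LinearMap.range x) = r := rfl
  have hnt : Nontrivial (LinearMap.range x) := by
    apply Module.nontrivial_of_finrank_pos (R := K)
    rw [hU]; exact hrpos
  obtain ⟨c, hc⟩ := Module.End.exists_eigenvalue T
  have hf0 : minpoly K T ≠ 0 := minpoly.ne_zero (Algebra.IsIntegral.isIntegral T)
  have hroot : (minpoly K T).IsRoot c := Module.End.isRoot_of_hasEigenvalue hc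
  obtain ⟨g, hg, hg2⟩ := Polynomial.exists_eq_pow_rootMultiplicity_mul_and_not_dvd _ hf0 c
  set a := (minpoly K T).rootMultiplicity c with ha
  have ha0 : 0 < a := (Polynomial.rootMultiplicity_pos hf0).mpr hroot
  have hcop : IsCoprime ((X - C c) ^ a) g := by
    apply IsCoprime.pow_left
    exact (Polynomial.irreducible_X_sub_C c).coprime_iff_not_dvd.mpr hg2
  have hsum := finrank_coprime T hcop (by rw [← hg]; exact minpoly.aeval K T)
  rw [hU] at hsum
  rw [← rk_aeval_mul hA' ((X - C c) ^ a), ← rk_aeval_mul hA' g] at hsum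
  have m1 : aeval (x * y) ((X - C c) ^ a) * x ∈ L := hL.aeval_mem hx hxx hy _
  have m2 : aeval (x * y) g * x ∈ L := hL.aeval_mem hx hxx hy _
  have hgpos : 0 < rk (aeval (x * y) g * x) := by
    rw [Nat.pos_iff_ne_zero]
    intro h3
    rw [rk_aeval_mul hA' g, Submodule.finrank_eq_zero, LinearMap.range_eq_bot] at h3
    have h4 := minpoly.dvd K T h3
    have hg0 : g ≠ 0 := by
      rintro rfl
      rw [mul_zero] at hg
      exact hf0 hg
    have h5 := Polynomial.natDegree_le_of_dvd h4 hg0
    rw [hg, Polynomial.natDegree_mul (pow_ne_zero _ (X_sub_C_ne_zero c)) hg0,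
      Polynomial.natDegree_pow, Polynomial.natDegree_X_sub_C] at h5
    omega
  by_cases key : rk (aeval (x * y) ((X - C c) ^ a) * x) = 0
  swap
  · left
    exact ⟨_, m1, _, m2, aeval_sq hxx _, aeval_sq hxx _, hsum, Nat.pos_of_ne_zero key, hgpos⟩
  right
  rw [rk_aeval_mul hA', Submodule.finrank_eq_zero, LinearMap.range_eq_bot] at key
  set n : Module.End K (LinearMap.range x) := T - algebraMap K _ c with hn
  have hnil : IsNilpotent n := by
    refine ⟨a, ?_⟩
    rw [map_pow, map_sub, aeval_X, aeval_C] at key
    exact key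
  have t1 : LinearMap.trace K V (x * y) = r * c := by
    rw [← LinearMap.trace_restrict_eq_of_forall_mem (LinearMap.range x) (x * y) hA hA']
    change LinearMap.trace K _ T = _
    have : T = n + c • (1 : Module.End K (LinearMap.range x)) := by
      rw [hn, Algebra.algebraMap_eq_smul_one, sub_add_cancel]
    rw [this, map_add, map_smul, LinearMap.trace_one, hU,
      (LinearMap.isNilpotent_trace_of_isNilpotent hnil).eq_zero, zero_add, smul_eq_mul]
    ring
  have t2 : LinearMap.trace K V ((x * y) * (x * y)) = r * c ^ 2 := by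
    have hB : ∀ v, ((x * y) * (x * y)) v ∈ LinearMap.range x := fun v => ⟨y ((x * y) v), rfl⟩
    rw [← LinearMap.trace_restrict_eq_of_forall_mem (LinearMap.range x) ((x * y) * (x * y)) hB
      (fun v _ => hB v)]
    have e1 : ((x * y) * (x * y)).restrict (fun v (_ : v ∈ LinearMap.range x) => hB v) = T * T := by
      ext v; rfl
    rw [e1]
    have : T * T = n * n + (2 * c) • n + (c ^ 2) • (1 : Module.End K (LinearMap.range x)) := by
      have : T = n + c • (1 : Module.End K (LinearMap.range x)) := by
        rw [hn, Algebra.algebraMap_eq_smul_one, sub_add_cancel]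
      rw [this]
      simp only [mul_add, add_mul, mul_smul_comm, smul_mul_assoc, mul_one, one_mul, smul_add,
        smul_smul]
      module
    have hnn : IsNilpotent (n * n) := (Commute.refl n).isNilpotent_mul_right hnil
    rw [this, map_add, map_add, map_smul, map_smul, LinearMap.trace_one, hU,
      (LinearMap.isNilpotent_trace_of_isNilpotent hnil).eq_zero,
      (LinearMap.isNilpotent_trace_of_isNilpotent hnn).eq_zero, smul_zero, zero_add, zero_add,
      smul_eq_mul]
    ring
  rw [t1, t2]
  ring

/-- A square zero element for which the trace identity holds is extremal. -/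
lemma ext_of_trace {L : Submodule K (Module.End K V)} (hL : IrrSymp ω L)
    (hω : ω.Nondegenerate) {x : Module.End K V} (hx : x ∈ L) (hxx : x * x = 0) (hx0 : x ≠ 0)
    (h : ∀ y ∈ L, (rk x : K) * LinearMap.trace K V ((x * y) * (x * y)) =
      (LinearMap.trace K V (x * y)) ^ 2) {y : Module.End K V} (hy : y ∈ L) :
    x * y * x = (LinearMap.trace K V (x * y) / rk x) • x := by
  have hr0 : (rk x : K) ≠ 0 := by rw [Nat.cast_ne_zero]; exact (rk_pos.mpr hx0).ne'
  rw [← sub_eq_zero]
  apply hL.nondeg hω
  · exact L.sub_mem (hL.sandwich hx hxx hy) (L.smul_mem _ hx)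
  intro y' hy'
  rw [sub_mul, map_sub, smul_mul_assoc, map_smul, smul_eq_mul]
  have h1 := h y hy
  have h2 := h y' hy'
  have h3 := h _ (L.add_mem hy hy')
  have e : x * (y + y') * (x * (y + y')) = x * y * (x * y) + x * y' * (x * y') + x * y * (x * y')
    + x * y' * (x * y) := by noncomm_ring
  have e2 : LinearMap.trace K V (x * y' * (x * y)) = LinearMap.trace K V (x * y * (x * y')) :=
    LinearMap.trace_mul_comm _ _ _
  rw [e, map_add, map_add, map_add, e2, mul_add x y y', map_add] at h3
  have e3 : x * y * x * y' = x * y * (x * y') := by noncomm_ring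
  rw [e3]
  field_simp
  linear_combination (1 / 2) * h3 - (1 / 2) * h1 - (1 / 2) * h2

end main

end RD

variable {K : Type*} [Field K] [CharZero K] [IsAlgClosed K]
  {V : Type*} [AddCommGroup V] [Module K V] [FiniteDimensional K V]
  {ω : LinearMap.BilinForm K V}

/-- C -/
theorem rank_dvd {L : LieSubalgebra K (Module.End K V)} {S : Set (Module.End K V)}
    (hC : Ctx ω L.toSubmodule S) (hsimple : IsSimple K L) {e : Module.End K V} (he : e ∈ L)
    (he0 : e ≠ 0) (hee : e * e = 0) (hext : ∀ y ∈ L, ∃ c : K, e * y * e = c • e)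
    {N : Module.End K V} (hN : N ∈ L) (hNN : N * N = 0) : rk e ∣ rk N := by
  have heE : e ∈ RD.Ex L.toSubmodule (rk e) := ⟨he, hee, rfl, hext⟩
  have main : ∀ n : ℕ, ∀ N ∈ L, N * N = 0 → rk N = n → rk e ∣ n := by
    intro n
    induction n using Nat.strong_induction_on with
    | _ n ih =>
      intro N hN hNN hn
      by_cases hN0 : N = 0
      · rw [← hn, hN0, rk_eq_zero.mpr rfl]
        exact dvd_zero _
      by_cases hall : ∀ y ∈ L, (rk N : K) * LinearMap.trace K V ((N * y) * (N * y)) =
          (LinearMap.trace K V (N * y)) ^ 2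
      · have hex : ∀ y ∈ L, N * y * N = (LinearMap.trace K V (N * y) / rk N) • N :=
          fun y hy => RD.ext_of_trace hC.irr hC.nd (L := L.toSubmodule) hN hNN hN0 hall hy
        obtain ⟨y, hy, hty⟩ := RD.exists_pair hC hsimple heE he0 hN hN0
        have h1 : rk N ≤ rk y := RD.le_of_ext (hex y hy.1) hty
        obtain ⟨c, hc⟩ := hy.2.2.2 N hN
        have h2 : rk y ≤ rk N := RD.le_of_ext hc (by rwa [LinearMap.trace_mul_comm])
        rw [hy.2.2.1] at h1 h2
        rw [← hn, le_antisymm h1 h2]
      · push Not at hall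
        obtain ⟨y, hy, hne⟩ := hall
        rcases RD.dich hC.irr (L := L.toSubmodule) hN hNN hN0 hy with
          ⟨u, hu, v, hv, huu, hvv, hsum, hu0, hv0⟩ | h
        · rw [← hn, ← hsum]
          exact Nat.dvd_add (ih (rk u) (by omega) u hu huu rfl) (ih (rk v) (by omega) v hv hvv rfl)
        · exact absurd h hne
  exact main (rk N) N hN hNN rfl

end TR
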